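import Pool.Agent.Lib.MP_0d3db7.NS.Final4
import Pool.Agent.Lib.MP_0d3db7.D1.Final

/-!
# The quenched central limit theorem for excited random walk with i.i.d. cookies

`ω (z, i) o e` is the probability of the step in the direction `e` at the `i`-th visit (`i ≥ 1`) of
the site `z` in the environment `o`; the cookies `ω (z, i)` are independent and identically
distributed, with mean `q`; `Sg q` is the covariance matrix, `drift q` the mean step.

1. `d ≥ 3`, or `d = 2` and drift: the quenched CLT holds (centering `n v`, covariance `Sg q`) if the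
   cookie is not almost surely a unit vector.
2. `d = 2`: it holds if the cookie does not prescribe a set of directions.
3. `d = 1`, drift: it holds, with a random centering, if the cookie is not a.s. a unit vector.
4. `d = 1`, no drift: it fails almost surely if the cookie is not a.s. equal to `q`.
5. It holds if the cookie is a.s. equal to `q`.
6. It fails almost surely if the cookie is a.s. a unit vector.
-/

set_option autoImplicit false

namespace Pool.Agent.Results.MP_0d3db7_pr.QuenchedCLT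

open MeasureTheory ProbabilityTheory Filter Topology MP0d3db7NS

theorem result {d : ℕ} (hd : 1 ≤ d) {Ω : Type} [MeasurableSpace Ω] (P : Measure Ω)
    [IsProbabilityMeasure P] (ω : (Fin d → ℤ) × ℕ → Ω → Dr d → ℝ)
    (hm : ∀ κ, Measurable (ω κ)) (hpv : ∀ κ o, PV (ω κ o)) (hind : iIndepFun ω P)
    (hid : ∀ κ, IdentDistrib (ω κ) (ω (0, 1)) P P) (q : Dr d → ℝ)
    (hq : ∀ e, ∫ o, ω (0, 1) o e ∂P = q e) (hS : (Sg q).det ≠ 0) :
    ((3 ≤ d ∨ (d = 2 ∧ drift q ≠ 0)) → ¬ PtMass P (ω (0, 1)) →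
      ∀ᵐ o ∂P, Lim (fun κ => ω κ o) (fun n i => n * drift q i)
        (multivariateGaussian 0 (Sg q))) ∧
    (d = 2 → Mixing P (ω (0, 1)) q →
      ∀ᵐ o ∂P, Lim (fun κ => ω κ o) (fun n i => n * drift q i)
        (multivariateGaussian 0 (Sg q))) ∧
    (d = 1 → drift q ≠ 0 → ¬ PtMass P (ω (0, 1)) →
      ∃ v : ℝ, 0 < v ∧ ∀ᵐ o ∂P, ∃ c : ℕ → Fin d → ℝ, Lim (fun κ => ω κ o) c
        (multivariateGaussian 0 (Matrix.diagonal fun _ => v))) ∧
    (d = 1 → drift q = 0 → (¬ ∀ᵐ o ∂P, ω (0, 1) o = q) → ∀ᵐ o ∂P, NoLim fun κ => ω κ o) ∧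
    ((∀ᵐ o ∂P, ω (0, 1) o = q) → ∀ᵐ o ∂P, Lim (fun κ => ω κ o) (fun n i => n * drift q i)
      (multivariateGaussian 0 (Sg q))) ∧
    (PtMass P (ω (0, 1)) → ∀ᵐ o ∂P, NoLim fun κ => ω κ o) :=
  final MP0d3db7D1.d1 hd P ω hm hpv hind hid q hq hS

end Pool.Agent.Results.MP_0d3db7_pr.QuenchedCLT
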